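import Pool.Agent.Helper28.MP.PITc
import Pool.Agent.Helper37.MP.Defs

/-!
# PIT (c) in the form of `Helper37/MP/Defs.lean`
-/

set_option autoImplicit false

namespace Pool.Agent.MPA

open NumberField IsDedekindDomain
open Pool.Agent.HG (Pr nm)

/-- PIT (c) -/
theorem stmtC : StmtC := by
  intro h
  refine Pool.Agent.MP.pit_of_b fun L _ _ => ?_
  obtain ⟨c, x₀, hc, hS⟩ := h L
  refine ⟨c, 2, x₀, hc, by norm_num, fun x hx => ?_⟩
  obtain ⟨S, h1, h2⟩ := hS x hx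
  exact ⟨S, fun P hP => ⟨(h1 P hP).2.1, (h1 P hP).2.2, (h1 P hP).1⟩, h2⟩

end Pool.Agent.MPA
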