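import Pool.Agent.Helper28.MP.B2
import Pool.Agent.Helper28.MP.C
import Pool.Agent.Helper37.MP.NV
import Pool.Agent.Helper37.MP.LD
import Pool.Agent.Helper13.AR.KAsm

/-!
# PIT: many primes which split completely
-/

set_option autoImplicit false

namespace Pool.Agent.MP

/-- block PIT -/
theorem pit : StmtPIT :=
  MPA.stmtC (MPA.stmtB Pool.Agent.Helper13.AR.hecke MPA.stmtNV MPA.stmtLD)

end Pool.Agent.MP
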