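import Pool.Agent.Helper37.MP.Defs
import Pool.Agent.Helper7.PNT.WI
import Mathlib.NumberTheory.Chebyshev

/-!
# PIT (b1): from `∑_{n ≤ x} vM F n ~ x` to many primes of degree one in `(x / 2, x]`
-/

set_option autoImplicit false

namespace Pool.Agent.MPA

open NumberField IsDedekindDomain Filter Topology Finset
open Pool.Agent.HG (Pr nm)
open Pool.Agent.Helper7.PNT (S)

theorem fin_nm28 (F : Type) [Field F] [NumberField F] (x : ℕ) : {v : Pr F | nm v ≤ x}.Finite := by
  have h := Ideal.finite_setOf_absNorm_le₀ (S := 𝓞 F) x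
  refine Set.Finite.of_finite_image (f := fun v : Pr F => (v.asIdeal : Ideal (𝓞 F)))
    ((h.image Subtype.val).subset ?_) (fun v _ w _ hvw => HeightOneSpectrum.ext hvw)
  rintro _ ⟨v, hv, rfl⟩
  exact ⟨⟨v.asIdeal, mem_nonZeroDivisors_of_ne_zero v.ne_bot⟩, hv, rfl⟩

/-- the sum of `vM F n` over the numbers `n ≤ x` which are not prime -/
theorem np28 (F : Type) [Field F] [NumberField F] (hLD : StmtLD) {x : ℕ} (hx : 1 ≤ x) :
    ∑ n ∈ (Ioc (x / 2) x).filter (fun n => ¬ n.Prime), vM F n ≤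
      Module.finrank ℚ F * (2 * √(x : ℝ) * Real.log x) := by
  obtain ⟨-, h0, h1, -⟩ := hLD F
  calc ∑ n ∈ (Ioc (x / 2) x).filter (fun n => ¬ n.Prime), vM F n
      ≤ ∑ n ∈ (Ioc 0 x).filter (fun n => ¬ n.Prime), vM F n :=
        sum_le_sum_of_subset_of_nonneg (filter_subset_filter _ (Ioc_subset_Ioc_left (Nat.zero_le _)))
          (fun n _ _ => h0 n)
    _ ≤ ∑ n ∈ (Ioc 0 x).filter (fun n => ¬ n.Prime),
          (Module.finrank ℚ F : ℝ) * ArithmeticFunction.vonMangoldt n := sum_le_sum fun n _ => h1 n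
    _ = Module.finrank ℚ F * (Chebyshev.psi x - Chebyshev.theta x) := by
        rw [← mul_sum, Chebyshev.psi_sub_theta_eq_sum_not_prime, Nat.floor_natCast]
    _ ≤ _ := mul_le_mul_of_nonneg_left (Chebyshev.psi_sub_theta_le (by exact_mod_cast hx))
        (Nat.cast_nonneg _)

open Classical in
/-- the primes of degree one in `(x / 2, x]` -/
theorem deg28 (F : Type) [Field F] [NumberField F] (hLD : StmtLD) {x : ℕ}
    (T : Finset (Pr F)) (hT : ∀ v, v ∈ T ↔ (nm v).Prime ∧ x / 2 < nm v ∧ nm v ≤ x) :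
    ∑ n ∈ (Ioc (x / 2) x).filter (fun n => n.Prime), vM F n ≤ T.card * Real.log x := by
  obtain ⟨-, -, -, h2⟩ := hLD F
  have h3 : T.card = ∑ n ∈ (Ioc (x / 2) x).filter (fun n => n.Prime),
      (T.filter (fun v => nm v = n)).card := by
    refine card_eq_sum_card_fiberwise fun v hv => ?_
    have := (hT v).1 hv
    simp only [coe_filter, mem_Ioc, Set.mem_setOf_eq]
    exact ⟨⟨this.2.1, this.2.2⟩, this.1⟩
  rw [h3]
  push_cast
  rw [sum_mul]
  refine sum_le_sum fun n hn => ?_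
  obtain ⟨hn1, hn2⟩ := mem_filter.1 hn
  obtain ⟨hn3, hn4⟩ := mem_Ioc.1 hn1
  rw [h2 n hn2]
  have h4 : Nat.card {v : Pr F // nm v = n} = (T.filter (fun v => nm v = n)).card := by
    refine Nat.subtype_card _ fun v => ?_
    rw [mem_filter, hT]
    refine ⟨fun h => h.2, fun h => ⟨?_, h⟩⟩
    rw [h]
    exact ⟨hn2, hn3, hn4⟩
  rw [h4]
  refine mul_le_mul_of_nonneg_left (Real.log_le_log ?_ ?_) (Nat.cast_nonneg _)
  · exact_mod_cast hn2.pos
  · exact_mod_cast hn4

/-- PIT (b1) -/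
theorem pn_of_tendsto (hLD : StmtLD) (h : ∀ (F : Type) [Field F] [NumberField F],
    Tendsto (fun x : ℝ => S (vM F) x / x) atTop (𝓝 1)) : StmtPN := by
  classical
  intro F _ _
  have h0 := (hLD F).2.1
  -- the logarithm
  have hsm : ∀ᶠ x : ℝ in atTop, (Module.finrank ℚ F : ℝ) * (2 * √x * Real.log x) ≤ x / 8 := by
    have h1 := (isLittleO_log_rpow_atTop (show (0 : ℝ) < 1 / 2 by norm_num)).bound
      (show (0 : ℝ) < 1 / (16 * (Module.finrank ℚ F + 1)) by positivity)
    filter_upwards [h1, eventually_ge_atTop (1 : ℝ)] with x hx hx1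
    have hx0 : 0 < x := by linarith
    rw [Real.norm_of_nonneg (Real.log_nonneg hx1), Real.norm_of_nonneg (by positivity),
      ← Real.sqrt_eq_rpow] at hx
    have hs : √x * √x = x := Real.mul_self_sqrt hx0.le
    have hs0 : 0 ≤ √x := Real.sqrt_nonneg x
    have hd : (0 : ℝ) ≤ Module.finrank ℚ F := Nat.cast_nonneg _
    calc (Module.finrank ℚ F : ℝ) * (2 * √x * Real.log x)
        ≤ Module.finrank ℚ F * (2 * √x * (1 / (16 * (Module.finrank ℚ F + 1)) * √x)) := by gcongr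
      _ = (Module.finrank ℚ F / (Module.finrank ℚ F + 1)) * ((√x * √x) / 8) := by
          field_simp
          ring
      _ ≤ 1 * ((√x * √x) / 8) := by
          refine mul_le_mul_of_nonneg_right ?_ (by positivity)
          rw [div_le_one (by positivity)]
          linarith
      _ = x / 8 := by rw [hs, one_mul]
  have hlim := (h F).eventually (Metric.ball_mem_nhds 1 (show (0 : ℝ) < 1 / 12 by norm_num))
  obtain ⟨X, hX⟩ := eventually_atTop.1 (hsm.and (hlim.and (eventually_ge_atTop (2 : ℝ))))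
  obtain ⟨X₁, hX₁⟩ : ∃ X₁ : ℕ, 2 * |X| + 4 ≤ X₁ := exists_nat_ge _
  refine ⟨1 / 4, X₁, by norm_num, fun x hx => ?_⟩
  have hxr : 2 * |X| + 4 ≤ (x : ℝ) := hX₁.trans (by exact_mod_cast hx)
  have hXabs := le_abs_self X
  have habs := abs_nonneg X
  obtain ⟨a1, a2, a3⟩ := hX x (by linarith)
  obtain ⟨-, b2, b3⟩ := hX (x / 2) (by linarith)
  rw [Real.dist_eq, abs_lt] at a2 b2
  have hx0 : (0 : ℝ) < x := by linarith
  have a4 : 11 / 12 * (x : ℝ) ≤ S (vM F) x := by
    have := a2.1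
    have h5 : 11 / 12 ≤ S (vM F) x / x := by linarith
    rwa [le_div_iff₀ hx0] at h5
  have b4 : S (vM F) (x / 2) ≤ 13 / 12 * ((x : ℝ) / 2) := by
    have := b2.2
    have h5 : S (vM F) (x / 2) / (x / 2) ≤ 13 / 12 := by linarith
    rwa [div_le_iff₀ (by positivity)] at h5
  have hS : S (vM F) x = S (vM F) (x / 2) + ∑ n ∈ Ioc (x / 2) x, vM F n := by
    unfold S
    have e1 : ⌊(x : ℝ) / 2⌋₊ = x / 2 := by
      have := Nat.floor_div_natCast (x : ℝ) 2
      rw [Nat.floor_natCast] at this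
      exact_mod_cast this
    rw [e1, Nat.floor_natCast]
    have e2 : Icc 1 x = Icc 1 (x / 2) ∪ Ioc (x / 2) x := by
      ext n
      simp only [mem_Icc, mem_union, mem_Ioc]
      omega
    have e3 : Disjoint (Icc 1 (x / 2)) (Ioc (x / 2) x) := by
      rw [disjoint_left]
      intro n h1 h2
      simp only [mem_Icc] at h1
      simp only [mem_Ioc] at h2
      omega
    rw [e2, sum_union e3]
  have hsplit := sum_filter_add_sum_filter_not (Ioc (x / 2) x) (fun n => n.Prime) (vM F)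
  have hx1 : 1 ≤ x := by
    have : (1 : ℝ) ≤ x := by linarith
    exact_mod_cast this
  have hnp := np28 F hLD hx1
  obtain ⟨T, hT⟩ : ∃ T : Finset (Pr F), ∀ v, v ∈ T ↔ (nm v).Prime ∧ x / 2 < nm v ∧ nm v ≤ x := by
    refine ⟨(fin_nm28 F x).toFinset.filter (fun v => (nm v).Prime ∧ x / 2 < nm v), fun v => ?_⟩
    rw [mem_filter, Set.Finite.mem_toFinset]
    simp only [Set.mem_setOf_eq]
    tauto
  have hdeg := deg28 F hLD T hT
  have hlog : 0 < Real.log x := Real.log_pos (by linarith)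
  refine ⟨T, fun v hv => ?_, ?_⟩
  · obtain ⟨t1, t2, t3⟩ := (hT v).1 hv
    exact ⟨t1, by omega, t3⟩
  · rw [div_le_iff₀ hlog]
    linarith

end Pool.Agent.MPA
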