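import Pool.Agent.Helper28.MP.B1
import Pool.Agent.Helper3.AR.Fin

/-!
# PIT (b2): `∑_{n ≤ x} vM F n ~ x` from the theorem of Wiener and Ikehara
-/

set_option autoImplicit false

namespace Pool.Agent.MPA

open NumberField IsDedekindDomain Filter Topology
open Pool.Agent.HG (Pr nm)
open Pool.Agent.Helper7.PNT (S wienerIkehara)
open Pool.Agent.Helper3.AR (HeckeThm zeta_entire zeta_ne_zero)

theorem S_le28 (F : Type) [Field F] [NumberField F] (hLD : StmtLD) (n : ℕ) :
    S (vM F) n ≤ (Module.finrank ℚ F * (Real.log 4 + 4)) * n := by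
  obtain ⟨-, h0, h1, -⟩ := hLD F
  have e1 : Finset.Icc 1 n = Finset.Ioc 0 n := by
    ext m
    simp only [Finset.mem_Icc, Finset.mem_Ioc]
    omega
  unfold S
  rw [Nat.floor_natCast, e1]
  calc ∑ m ∈ Finset.Ioc 0 n, vM F m
      ≤ ∑ m ∈ Finset.Ioc 0 n, (Module.finrank ℚ F : ℝ) * ArithmeticFunction.vonMangoldt m :=
        Finset.sum_le_sum fun m _ => h1 m
    _ = Module.finrank ℚ F * Chebyshev.psi n := by
        rw [← Finset.mul_sum, Chebyshev.psi, Nat.floor_natCast]
    _ ≤ Module.finrank ℚ F * ((Real.log 4 + 4) * n) :=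
        mul_le_mul_of_nonneg_left (Chebyshev.psi_le_const_mul_self (Nat.cast_nonneg _)) (Nat.cast_nonneg _)
    _ = _ := by ring

theorem tend28 (hA : HeckeThm) (hNV : StmtNV) (hLD : StmtLD) (F : Type) [Field F] [NumberField F] :
    Tendsto (fun x : ℝ => S (vM F) x / x) atTop (𝓝 1) := by
  obtain ⟨Λ, h1, h2⟩ := zeta_entire hA F
  obtain ⟨hL, h0, -, -⟩ := hLD F
  have hne : ∀ s : ℂ, 1 ≤ s.re → Λ s ≠ 0 := by
    intro s hs
    rcases hs.lt_or_eq with h | h
    · rw [h2 s h]
      refine mul_ne_zero ?_ (zeta_ne_zero F s h)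
      intro h'
      rw [sub_eq_zero.1 h'] at h
      simp at h
    · exact hNV F Λ h1 h2 s h.symm
  have hd : Differentiable ℂ (deriv Λ) := by
    have h3 : DifferentiableOn ℂ (deriv Λ) Set.univ :=
      h1.differentiableOn.deriv isOpen_univ
    rwa [differentiableOn_univ] at h3
  refine wienerIkehara (A := 1) (G := fun s => - deriv Λ s / Λ s) h0 (S_le28 F hLD) ?_ ?_
  · refine ContinuousOn.div (hd.continuous.neg.continuousOn) h1.continuous.continuousOn fun s hs => ?_
    exact hne s hs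
  · intro s hs
    have hs1 : s - 1 ≠ 0 := by
      intro h'
      rw [sub_eq_zero.1 h'] at hs
      simp at hs
    have hz := zeta_ne_zero F s hs
    have hopen : IsOpen {z : ℂ | 1 < z.re} := isOpen_lt continuous_const Complex.continuous_re
    have hev : (fun z => Λ z / (z - 1)) =ᶠ[𝓝 s] dedekindZeta F := by
      filter_upwards [hopen.mem_nhds hs] with z hz'
      have hz1 : z - 1 ≠ 0 := by
        intro h'
        have hz'' : 1 < z.re := hz'
        rw [sub_eq_zero.1 h'] at hz''
        simp at hz''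
      rw [h2 z hz', mul_div_cancel_left₀ _ hz1]
    have hder : deriv (dedekindZeta F) s = (deriv Λ s * (s - 1) - Λ s * 1) / (s - 1) ^ 2 := by
      rw [← hev.deriv_eq]
      exact ((h1 s).hasDerivAt.div ((hasDerivAt_id s).sub_const 1) hs1).deriv
    rw [hL s hs, hder, h2 s hs]
    have : ((1 : ℝ) : ℂ) = 1 := by norm_num
    rw [this]
    field_simp
    ring

/-- PIT (b) -/
theorem stmtB (hA : HeckeThm) (hNV : StmtNV) (hLD : StmtLD) : StmtPN :=
  pn_of_tendsto hLD fun F _ _ => tend28 hA hNV hLD F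

end Pool.Agent.MPA
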