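import Pool.Agent.Helper13.MP.Defs

/-!
# PIT (c): from the primes of degree one of `L` to the primes of `k` which split completely

`L/k` Galois.  A prime `P` of `L` of prime norm `p` lies over a prime `v` of `k` of norm `p`; the
primes over `v` are conjugate, so all of them have norm `p` and `z ^ p ≡ z` modulo each of them; at
most `|Gal(L/k)|` primes lie over `v`.
-/

set_option autoImplicit false

namespace Pool.Agent.MP

open NumberField IsDedekindDomain
open Pool.Agent.HG (Pr nm)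

/-- PIT (b): a lower bound for the number of the primes of `L` of prime norm -/
def StmtPITb : Prop :=
  ∀ (L : Type) [Field L] [NumberField L], ∃ (c : ℝ) (K x₀ : ℕ), 0 < c ∧ 1 ≤ K ∧ ∀ x : ℕ, x₀ ≤ x →
    ∃ S : Finset (Pr L), (∀ P ∈ S, x < K * nm P ∧ nm P ≤ x ∧ (nm P).Prime) ∧
      c * x / Real.log x ≤ S.card

section

variable {k L : Type} [Field k] [NumberField k] [Field L] [NumberField L] [Algebra k L]

/-- the prime of `k` below a prime of `L` -/
noncomputable def belowPr (k : Type) {L : Type} [Field k] [NumberField k] [Field L] [NumberField L]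
    [Algebra k L] (P : Pr L) : Pr k where
  asIdeal := P.asIdeal.comap (algebraMap (𝓞 k) (𝓞 L))
  isPrime := Ideal.comap_isPrime _ _
  ne_bot := Ideal.under_ne_bot (𝓞 k) P.ne_bot

theorem nm_eq_card28 (v : Pr k) : nm v = Nat.card (𝓞 k ⧸ v.asIdeal) := rfl

theorem nm_ne_one28 (v : Pr k) : nm v ≠ 1 := by
  intro h
  exact v.isPrime.ne_top (Ideal.absNorm_eq_one_iff.1 h)

theorem nm_below_dvd (P : Pr L) : nm (belowPr k P) ∣ nm P := by
  have hi : Function.Injective (Ideal.quotientMap P.asIdeal (algebraMap (𝓞 k) (𝓞 L)) le_rfl :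
      𝓞 k ⧸ (belowPr k P).asIdeal →+* 𝓞 L ⧸ P.asIdeal) := Ideal.quotientMap_injective
  exact AddSubgroup.card_dvd_of_injective (Ideal.quotientMap P.asIdeal (algebraMap (𝓞 k) (𝓞 L)) le_rfl :
      𝓞 k ⧸ (belowPr k P).asIdeal →+* 𝓞 L ⧸ P.asIdeal).toAddMonoidHom hi

theorem nm_below_prime {P : Pr L} (hP : (nm P).Prime) : nm (belowPr k P) = nm P :=
  (hP.eq_one_or_self_of_dvd _ (nm_below_dvd P)).resolve_left (nm_ne_one28 _)

theorem mem_over28 (P : Pr L) (v : Pr k) (h : P.asIdeal.comap (algebraMap (𝓞 k) (𝓞 L)) = v.asIdeal) :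
    P.asIdeal ∈ Ideal.primesOver v.asIdeal (𝓞 L) :=
  ⟨P.isPrime, ⟨h.symm⟩⟩

/-- the primes over `v` are conjugate -/
theorem conj28 [IsGalois k L] (P P' : Pr L) (h : belowPr k P = belowPr k P') :
    ∃ σ : L ≃ₐ[k] L, P.asIdeal.comap (galRestrict (𝓞 k) k L (𝓞 L) σ) = P'.asIdeal := by
  have h1 := mem_over28 P (belowPr k P) rfl
  have h2 := mem_over28 P' (belowPr k P) (by rw [h]; rfl)
  exact Ideal.exists_comap_galRestrict_eq (𝓞 k) k L (𝓞 L) h1 h2

theorem nm_conj28 [IsGalois k L] (P P' : Pr L) (h : belowPr k P = belowPr k P') : nm P' = nm P := by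
  obtain ⟨σ, hσ⟩ := conj28 P P' h
  rw [nm_eq_card28, nm_eq_card28]
  refine Nat.card_congr (Ideal.quotientEquiv P'.asIdeal P.asIdeal
    ((galRestrict (𝓞 k) k L (𝓞 L) σ : 𝓞 L ≃ₐ[𝓞 k] 𝓞 L) : 𝓞 L ≃+* 𝓞 L) ?_).toEquiv
  rw [← hσ]
  exact (Ideal.map_comap_of_surjective _ (galRestrict (𝓞 k) k L (𝓞 L) σ).surjective _).symm

/-- a prime of prime norm satisfies the small theorem of Fermat -/
theorem fermat28 (P : Pr L) (z : 𝓞 L) : z ^ nm P - z ∈ P.asIdeal := by
  have : P.asIdeal.IsMaximal := P.isMaximal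
  letI : Field (𝓞 L ⧸ P.asIdeal) := Ideal.Quotient.field _
  have hfin : Finite (𝓞 L ⧸ P.asIdeal) := by
    refine Nat.finite_of_card_ne_zero ?_
    rw [← nm_eq_card28]
    exact fun h => P.ne_bot (Ideal.absNorm_eq_zero_iff.1 h)
  haveI := Fintype.ofFinite (𝓞 L ⧸ P.asIdeal)
  rw [← Ideal.Quotient.eq, map_pow, nm_eq_card28, Nat.card_eq_fintype_card]
  exact FiniteField.pow_card _

theorem spl28 [IsGalois k L] {P : Pr L} (hP : (nm P).Prime) : Spl k L (belowPr k P) := by
  intro P' hP' z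
  have h : belowPr k P = belowPr k P' := by
    ext1
    exact hP'.symm
  rw [nm_below_prime hP, ← nm_conj28 P P' h]
  exact fermat28 P' z

theorem fiber28 [IsGalois k L] [DecidableEq (Pr k)] (S : Finset (Pr L)) (v : Pr k) :
    (S.filter (fun P => belowPr k P = v)).card ≤ Nat.card (L ≃ₐ[k] L) := by
  classical
  rcases (S.filter (fun P => belowPr k P = v)).eq_empty_or_nonempty with h0 | ⟨P, hP⟩
  · rw [h0]
    exact Nat.zero_le _
  have hPv := (Finset.mem_filter.1 hP).2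
  have h1 : (S.filter (fun P => belowPr k P = v)).image (fun P => P.asIdeal) ⊆
      (Finset.univ : Finset (L ≃ₐ[k] L)).image
        (fun σ => P.asIdeal.comap (galRestrict (𝓞 k) k L (𝓞 L) σ)) := by
    intro I hI
    obtain ⟨P', hP', rfl⟩ := Finset.mem_image.1 hI
    obtain ⟨σ, hσ⟩ := conj28 P P' (hPv.trans (Finset.mem_filter.1 hP').2.symm)
    exact Finset.mem_image.2 ⟨σ, Finset.mem_univ _, hσ⟩
  have h2 := Finset.card_le_card h1
  rw [Finset.card_image_of_injective _ (fun P P' h => HeightOneSpectrum.ext h)] at h2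
  refine h2.trans (Finset.card_image_le.trans ?_)
  rw [Finset.card_univ, Nat.card_eq_fintype_card]

end

/-- PIT (c) -/
theorem pit_of_b (hb : StmtPITb) : StmtPIT := by
  classical
  intro k L _ _ _ _ _ _
  obtain ⟨c, K, x₀, hc, hK, hS⟩ := hb L
  have hg : 0 < Nat.card (L ≃ₐ[k] L) := Nat.card_pos
  have hg' : (0 : ℝ) < Nat.card (L ≃ₐ[k] L) := by exact_mod_cast hg
  refine ⟨c / Nat.card (L ≃ₐ[k] L), K, x₀, by positivity, hK, fun x hx => ?_⟩
  obtain ⟨S, h1, h2⟩ := hS x hx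
  refine ⟨S.image (belowPr k), fun v hv => ?_, ?_⟩
  · obtain ⟨P, hP, rfl⟩ := Finset.mem_image.1 hv
    obtain ⟨a1, a2, a3⟩ := h1 P hP
    rw [nm_below_prime a3]
    exact ⟨a1, a2, spl28 a3⟩
  · have h3 := Finset.card_le_mul_card_image (f := belowPr k) S (Nat.card (L ≃ₐ[k] L))
      (fun v _ => fiber28 S v)
    have h4 : (S.card : ℝ) ≤ Nat.card (L ≃ₐ[k] L) * (S.image (belowPr k)).card := by
      exact_mod_cast h3
    have h5 : c / Nat.card (L ≃ₐ[k] L) * x / Real.log x = c * x / Real.log x / Nat.card (L ≃ₐ[k] L) := by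
      ring
    rw [h5, div_le_iff₀ hg']
    linarith

end Pool.Agent.MP
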